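import Pool.Agent.H201.Bn.Trans
import Pool.Graph.R_pool_sql_team_seeded_3997aac3.Results.MP_4d8f14_an.FinitePermutations

/-! # Nilpotent multiple averages: all systems and one Bernoulli shift

Let `G` be the free nilpotent group of class `s` with `d` generators. The almost everywhere convergence of the
averages of the problem for ALL systems of `d` maps which generate a nilpotent group of class at most `s` is
equivalent to a uniform (metastable) rate on ONE system, the Bernoulli shift of `G` with base the circle (as a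
probability space: the unit interval). The rate must be uniform in the functions only, and it is enough to
have it for indicator functions of sets which depend on finitely many coordinates.

For linear means (one function) almost everywhere convergence on one free system for all functions implies it for
all systems (Conze). For multiple averages this is not known: on Bernoulli shifts the convergence is known for
linear exponents (they are Kolmogorov systems), so that such a transfer would settle the question. The theorem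
says that what has to be added is exactly the uniformity of the rate.

Proof: from convergence to uniform rates, and from finite systems to all systems: the library
(`FinitePermutations`). From the Bernoulli shift to finite systems `Y`: for a Følner set `F` let `g(ω) ∈ F` be the
place where the labels `ω_h`, `h ∈ F`, are smallest. Since the smallest label of `F ∪ F w` is at a random place,
the smallest labels of `F` and `F w` are most likely at the same place, so that `ω ↦ g(ω)⁻¹` is almost equivariant;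
`ω ↦ g(ω)⁻¹ y`, with a random point `y` of `Y` read off from the label at `g(ω)`, is an almost equivariant map
to `Y` with the uniform distribution. -/

set_option autoImplicit false

open MeasureTheory Filter Topology
open scoped ENNReal

namespace Pool.Agent.Results.MP_4d8f14_an.BernoulliShift

variable {d m : ℕ}

/-- The averages `A_N(f_1, ..., f_m)(x)` over `|n| ≤ N` of `∏_j f_j (T_1^(e_1j(n)) ⋯ T_d^(e_dj(n)) x)`. -/
noncomputable def avg {X : Type} (T : Fin d → Equiv.Perm X) (e : Fin d → Fin m → ℤ → ℤ) (f : Fin m → X → ℂ)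
    (x : X) (N : ℕ) : ℂ :=
  ((2 * N + 1 : ℕ) : ℂ)⁻¹ * ∑ n ∈ Finset.Icc (-(N : ℤ)) (N : ℤ),
    ∏ j : Fin m, f j ((List.ofFn fun i : Fin d => T i ^ e i j n).prod x)

/-- Convergence almost everywhere for all systems whose maps generate a nilpotent group of class at most `s`. -/
def NilpotentMaps (s : ℕ) (e : Fin d → Fin m → ℤ → ℤ) : Prop :=
  ∀ (X : Type) [MeasurableSpace X] (μ : Measure X) [IsProbabilityMeasure μ] (T : Fin d → Equiv.Perm X),
    (∀ i, Measurable (T i).symm) → (∀ i, MeasurePreserving (T i) μ μ) →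
    (Subgroup.closure (Set.range T)).lowerCentralSeries s = ⊥ →
    ∀ f : Fin m → X → ℂ, (∀ j, MemLp (f j) ∞ μ) → ∀ᵐ x ∂μ, ∃ L : ℂ, Tendsto (avg T e f x) atTop (𝓝 L)

/-- The free nilpotent group of class `s` with `d` generators. -/
abbrev FN (d s : ℕ) : Type := FreeGroup (Fin d) ⧸ (⊤ : Subgroup (FreeGroup (Fin d))).lowerCentralSeries s

/-- `g_j(n) = t_1 ^ (e_1j(n)) ⋯ t_d ^ (e_dj(n))` in this group, where the `t_i` are the generators. -/
def word (s : ℕ) (e : Fin d → Fin m → ℤ → ℤ) (j : Fin m) (n : ℤ) : FN d s :=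
  (List.ofFn fun i : Fin d => ((FreeGroup.of i : FreeGroup (Fin d)) : FN d s) ^ e i j n).prod

/-- The shift action on the configurations `ω : G → ℝ / ℤ`: `(g ω)(h) = ω(h g)`. -/
def shift {G : Type} [Group G] (g : G) (ω : G → UnitAddCircle) : G → UnitAddCircle := fun h => ω (h * g)

/-- The Bernoulli measure: the `ω(h)` are independent and uniformly distributed. -/
noncomputable def bernoulli (G : Type) : Measure (G → UnitAddCircle) :=
  Measure.infinitePi fun _ : G => (volume : Measure UnitAddCircle)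

/-- The averages on the Bernoulli shift. -/
noncomputable def bavg (s : ℕ) (e : Fin d → Fin m → ℤ → ℤ) (f : Fin m → (FN d s → UnitAddCircle) → ℂ)
    (ω : FN d s → UnitAddCircle) (N : ℕ) : ℂ :=
  ((2 * N + 1 : ℕ) : ℂ)⁻¹ * ∑ n ∈ Finset.Icc (-(N : ℤ)) (N : ℤ), ∏ j : Fin m, f j (shift (word s e j n) ω)

/-- The rate on the Bernoulli shift: `K` does not depend on the functions. -/
def BernoulliRate (s : ℕ) (e : Fin d → Fin m → ℤ → ℤ) : Prop :=
  ∀ ε : ℝ, 0 < ε → ∀ Φ : ℕ → ℕ, ∃ K : ℕ,
    ∀ f : Fin m → (FN d s → UnitAddCircle) → ℂ, (∀ j, Measurable (f j)) → (∀ j ω, ‖f j ω‖ ≤ 1) →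
      ∃ N, 1 ≤ N ∧ N ≤ K ∧ bernoulli (FN d s) {ω | ∃ n, N ≤ n ∧ n ≤ Φ N ∧
        ε < ‖bavg s e f ω n - bavg s e f ω N‖} ≤ ENNReal.ofReal ε

/-- A measurable set of configurations which depends on finitely many coordinates. -/
def LocalSet {G : Type} (A : Set (G → UnitAddCircle)) : Prop :=
  MeasurableSet A ∧ ∃ F : Finset G, ∀ ω ω' : G → UnitAddCircle, (∀ h ∈ F, ω h = ω' h) → (ω ∈ A ↔ ω' ∈ A)

/-- The share of the `n` with `|n| ≤ N` for which `g_j(n) ω` is in `A_j` for all `j`. -/
noncomputable def share (s : ℕ) (e : Fin d → Fin m → ℤ → ℤ) (A : Fin m → Set (FN d s → UnitAddCircle))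
    (ω : FN d s → UnitAddCircle) (N : ℕ) : ℝ :=
  (Nat.card {n : ℤ // -(N : ℤ) ≤ n ∧ n ≤ N ∧ ∀ j, shift (word s e j n) ω ∈ A j} : ℝ) / (2 * N + 1)

/-- The rate on the Bernoulli shift for sets which depend on finitely many coordinates. -/
def LocalRate (s : ℕ) (e : Fin d → Fin m → ℤ → ℤ) : Prop :=
  ∀ ε : ℝ, 0 < ε → ∀ Φ : ℕ → ℕ, ∃ K : ℕ, ∀ A : Fin m → Set (FN d s → UnitAddCircle), (∀ j, LocalSet (A j)) →
    ∃ N, 1 ≤ N ∧ N ≤ K ∧ bernoulli (FN d s) {ω | ∃ n, N ≤ n ∧ n ≤ Φ N ∧
      ε < |share s e A ω n - share s e A ω N|} ≤ ENNReal.ofReal ε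

/-- The question, as in the frozen statement `S04625`. -/
def Question : Prop :=
  ∀ (X : Type) [MeasurableSpace X] (μ : Measure X) [IsProbabilityMeasure μ]
    (d m : ℕ) (T : Fin d → Equiv.Perm X),
    (∀ i, Measurable ⇑(T i).symm) →
    (∀ i, MeasurePreserving (⇑(T i)) μ μ) →
    Group.IsNilpotent (Subgroup.closure (Set.range T)) →
    ∀ (P : Fin d → Fin m → Polynomial ℤ), (∀ i j, (P i j).eval 0 = 0) →
    ∀ (f : Fin m → X → ℂ), (∀ j, MemLp (f j) ∞ μ) →
    ∀ᵐ x ∂μ, ∃ L : ℂ, Filter.Tendsto
      (fun N : ℕ => ((2 * N + 1 : ℕ) : ℂ)⁻¹ *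
        ∑ n ∈ Finset.Icc (-(N : ℤ)) (N : ℤ),
          ∏ j : Fin m, f j ((List.ofFn fun i : Fin d => T i ^ (P i j).eval n).prod x))
      Filter.atTop (nhds L)

lemma shift_shf {G : Type} [Group G] (g : G) : (shift g : (G → UnitAddCircle) → _) = Pool.Agent.H201.Bn.shf g := rfl

lemma word_gam (s : ℕ) (e : Fin d → Fin m → ℤ → ℤ) (j : Fin m) (n : ℤ) : word s e j n = Pool.Agent.Q161.Ms.gam s e j n := rfl

lemma shift_mul {G : Type} [Group G] (g h : G) :
    (shift (g * h) : (G → UnitAddCircle) → _) = shift g ∘ shift h := by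
  funext ω k
  simp [shift, mul_assoc]

lemma shift_mp {G : Type} [Group G] (g : G) : MeasurePreserving (shift g) (bernoulli G) (bernoulli G) :=
  Pool.Agent.H201.Bn.bern_reindex (fun h => h * g) (mul_left_injective g)

instance (G : Type) : IsProbabilityMeasure (bernoulli G) := inferInstanceAs (IsProbabilityMeasure (Pool.Agent.H201.Bn.bern G))

/-- the shift as a homomorphism -/
def shiftHom (G : Type) [Group G] : G →* Equiv.Perm (G → UnitAddCircle) where
  toFun g := ⟨shift g, shift g⁻¹, fun ω => by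
    rw [← Function.comp_apply (f := shift g⁻¹), ← shift_mul, inv_mul_cancel]; funext h; simp [shift], fun ω => by
    rw [← Function.comp_apply (f := shift g), ← shift_mul, mul_inv_cancel]; funext h; simp [shift]⟩
  map_one' := by
    apply Equiv.ext
    intro ω
    funext h
    simp [shift]
  map_mul' g h := by
    apply Equiv.ext
    intro ω
    exact congrFun (shift_mul g h) ω

lemma uniform_bernoulli (s : ℕ) (e : Fin d → Fin m → ℤ → ℤ) (h : FinitePermutations.UniformRate s e) :
    BernoulliRate s e := by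
  intro ε hε Φ
  obtain ⟨K, hK⟩ := h ε hε Φ
  refine ⟨K, fun f hf hb => ?_⟩
  have h1 := hK (FN d s → UnitAddCircle) (bernoulli (FN d s))
    (fun i => shiftHom (FN d s) (Pool.Agent.Q161.Ms.tt d s i))
    (fun i => (shift_mp (Pool.Agent.Q161.Ms.tt d s i)⁻¹).measurable) (fun i => shift_mp _)
    (Pool.Agent.Q161.Ms.fn_image (shiftHom (FN d s))) f hf hb
  have h2 : ∀ ω N, FinitePermutations.avg (fun i => shiftHom (FN d s) (Pool.Agent.Q161.Ms.tt d s i)) e f ω N =
      bavg s e f ω N := by
    intro ω N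
    unfold FinitePermutations.avg bavg
    congr 1
    refine Finset.sum_congr rfl fun n _ => Finset.prod_congr rfl fun j _ => ?_
    congr 1
    have h3 := congrFun (Pool.Agent.Q161.Ms.gam_map (shiftHom (FN d s)) e j n) ω
    exact h3.symm
  simp only [h2] at h1
  exact h1

lemma bavg_share (s : ℕ) (e : Fin d → Fin m → ℤ → ℤ) (A : Fin m → Set (FN d s → UnitAddCircle))
    (ω : FN d s → UnitAddCircle) (N : ℕ) :
    bavg s e (fun j => (A j).indicator 1) ω N = ((share s e A ω N : ℝ) : ℂ) := by
  classical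
  unfold bavg share
  have h1 : Nat.card {n : ℤ // -(N : ℤ) ≤ n ∧ n ≤ N ∧ ∀ j, shift (word s e j n) ω ∈ A j} =
      ((Finset.Icc (-(N : ℤ)) (N : ℤ)).filter (fun n => ∀ j, shift (word s e j n) ω ∈ A j)).card := by
    rw [Nat.subtype_card]
    intro n
    rw [Finset.mem_filter, Finset.mem_Icc, and_assoc]
  rw [h1, Finset.card_eq_sum_ones, Finset.sum_filter, div_eq_inv_mul]
  push_cast
  congr 1
  refine Finset.sum_congr rfl fun n _ => ?_
  simp only [Set.indicator_apply, Pi.one_apply]
  by_cases h3 : ∀ j, shift (word s e j n) ω ∈ A j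
  · rw [if_pos h3]
    exact Finset.prod_eq_one fun j _ => if_pos (h3 j)
  · rw [if_neg h3]
    push Not at h3
    obtain ⟨j, hj⟩ := h3
    exact Finset.prod_eq_zero (Finset.mem_univ j) (if_neg hj)

lemma bernoulli_local (s : ℕ) (e : Fin d → Fin m → ℤ → ℤ) (h : BernoulliRate s e) : LocalRate s e := by
  intro ε hε Φ
  obtain ⟨K, hK⟩ := h ε hε Φ
  refine ⟨K, fun A hA => ?_⟩
  have h1 := hK (fun j => (A j).indicator 1) (fun j => measurable_one.indicator (hA j).1) (by
    intro j x
    by_cases hx : x ∈ A j <;> simp [hx])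
  simp only [bavg_share, ← Complex.ofReal_sub, Complex.norm_real, Real.norm_eq_abs] at h1
  exact h1

lemma local_finitary (s : ℕ) (e : Fin d → Fin m → ℤ → ℤ) (h : LocalRate s e) :
    Pool.Agent.Q161.Ms.FinG (fun N : ℕ => ((2 * N + 1 : ℕ) : ℂ)⁻¹) (fun N => Finset.Icc (-(N : ℤ)) (N : ℤ))
      (Pool.Agent.Q161.Ms.gam (I := ℤ) s e) (fun N R => Finset.Icc N R) (fun N => N) := by
  apply Pool.Agent.H201.Bn.loc_fin _ _ _ _ _ (Pool.Agent.Q161.Ms.fn_ft d s)
  intro ε hε Φ
  obtain ⟨K, hK⟩ := h ε hε Φ
  refine ⟨K, fun A hA => ?_⟩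
  obtain ⟨N, hN1, hN2, hN3⟩ := hK A hA
  refine ⟨N, hN1, hN2, ?_⟩
  have h1 : ∀ ω N, Pool.Agent.Q161.Ms.av (fun N : ℕ => ((2 * N + 1 : ℕ) : ℂ)⁻¹) (fun N => Finset.Icc (-(N : ℤ)) (N : ℤ))
      (fun j i => Pool.Agent.H201.Bn.shf (Pool.Agent.Q161.Ms.gam s e j i)) (fun j => (A j).indicator 1) ω N =
      ((share s e A ω N : ℝ) : ℂ) := fun ω N => bavg_share s e A ω N
  simp only [h1, dist_eq_norm, ← Complex.ofReal_sub, Complex.norm_real, Real.norm_eq_abs, Finset.mem_Icc, and_assoc]
  exact hN3

lemma local_nilpotent (s : ℕ) (e : Fin d → Fin m → ℤ → ℤ) (h : LocalRate s e) : NilpotentMaps s e := by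
  have h1 := Pool.Agent.Q161.Ms.fin_conv atTop (fun N : ℕ => ((2 * N + 1 : ℕ) : ℂ)⁻¹)
    (fun N => Finset.Icc (-(N : ℤ)) (N : ℤ)) (by
      intro t
      rw [Int.card_Icc, norm_inv, Complex.norm_natCast]
      have h2 : ((t : ℤ) + 1 - -(t : ℤ)).toNat = 2 * t + 1 := by omega
      rw [h2]
      exact inv_mul_le_one) (Pool.Agent.Q161.Ms.gam (I := ℤ) s e) (fun N R => Finset.Icc N R) (fun N => N)
      (Pool.Agent.Q161.Ms.fn_ft d s) (by
      intro N
      filter_upwards [eventually_ge_atTop N] with t ht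
      exact ⟨t, Finset.mem_Icc.2 ⟨ht, le_rfl⟩⟩) (by
      intro N R R' hR t ht
      rw [Finset.mem_Icc] at ht ⊢
      exact ⟨ht.1, ht.2.trans hR⟩) (local_finitary s e h)
  have h2 := Pool.Agent.Q161.Ms.convG_convT s atTop _ _ e h1
  exact h2

/-- **The Bernoulli shift of the free nilpotent group decides the question.** For all `d`, `m`, `s` and
arbitrary exponents `e_ij : ℤ → ℤ` the three statements are equivalent. Hence the question of the problem
has the answer yes if and only if `LocalRate` holds for all classes and all integer polynomials with zero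
constant term. -/
theorem result :
    (∀ (d m s : ℕ) (e : Fin d → Fin m → ℤ → ℤ),
      List.TFAE [NilpotentMaps s e, BernoulliRate s e, LocalRate s e]) ∧
    (Question ↔ ∀ (d m s : ℕ) (P : Fin d → Fin m → Polynomial ℤ), (∀ i j, (P i j).eval 0 = 0) →
      LocalRate s fun i j n => (P i j).eval n) := by
  have key : ∀ (d m s : ℕ) (e : Fin d → Fin m → ℤ → ℤ),
      List.TFAE [NilpotentMaps s e, BernoulliRate s e, LocalRate s e] := by
    intro d m s e
    tfae_have 1 → 2 := fun h => uniform_bernoulli s e ((FinitePermutations.equiv s e).1.1 h)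
    tfae_have 2 → 3 := bernoulli_local s e
    tfae_have 3 → 1 := local_nilpotent s e
    tfae_finish
  refine ⟨key, ⟨fun hQ d m s P hP => ?_, fun hF => ?_⟩⟩
  · refine ((key d m s _).out 0 2).1 ?_
    intro X _ μ _ T hT1 hT2 hT3 f hf
    exact hQ X μ d m T hT1 hT2 (Subgroup.isNilpotent_iff_lowerCentralSeries _ |>.2 ⟨s, hT3⟩) P hP f hf
  · intro X _ μ _ d m T hT1 hT2 hT3 P hP f hf
    obtain ⟨s, hs⟩ := (Subgroup.isNilpotent_iff_lowerCentralSeries _).1 hT3
    have h1 : NilpotentMaps s (fun i j n => (P i j).eval n) := ((key d m s _).out 0 2).2 (hF d m s P hP)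
    exact h1 X μ T hT1 hT2 hs f hf

end Pool.Agent.Results.MP_4d8f14_an.BernoulliShift
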