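import Pool.Agent.H201.Cz.Arc

/-! # Multiple averages of commuting maps and one irrational rotation of the circle

The almost everywhere convergence of the averages of the problem for ALL systems of `d` commuting maps is
equivalent to a uniform (metastable) rate for finite unions of arcs under the multiples `x + a_i α` of ONE
irrational rotation of the circle; the rate has to be uniform in the arcs and in the integers `a_i`. For a
given rotation and given arcs the averages converge everywhere and there is nothing to prove, so the whole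
question for commuting maps is this uniformity.

In particular the question for commuting maps is a question about powers `T ^ a_1, ..., T ^ a_d` of a single
map, with a rate that is uniform in the integers `a_i`; and a question about subsets of finite cyclic groups.
For two commuting maps, two functions and exponents `n` (open) the single map version is the one of
Bourgain's theorem on `f(T^(a n) x) g(T^(b n) x)`, uniformly in `a` and `b`.

The exponents `e_ij(n)` may be arbitrary integer sequences, for example polynomials as in the problem.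

Proof: from almost everywhere convergence for all commuting maps to a uniform rate and to permutations of finite
sets by the library (`FinitePermutations`: compactness and finite models). Commuting permutations
`T_1, ..., T_d` of a finite set `Y` are modelled in the cyclic group of order `|Y| M ^ d`: the element
`v + |Y| (u_1 + u_2 M + ... + u_d M ^ (d-1))` with digits `0 ≤ u_i < M` stands for the point
`T_1 ^ u_1 ⋯ T_d ^ u_d y_v` and `T_i` for the addition of `|Y| M ^ (i-1)`. A cyclic group acts on the circle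
by a rational rotation, which is approximated by a multiple of the irrational one; subsets become arcs. -/

set_option autoImplicit false

open MeasureTheory Filter Topology
open scoped ENNReal

namespace Pool.Agent.Results.MP_4d8f14_an.OneRotation

variable {d m : ℕ}

/-- The averages `A_N(f_1, ..., f_m)(x)` over `|n| ≤ N` of `∏_j f_j (T_1^(e_1j(n)) ⋯ T_d^(e_dj(n)) x)`. -/
noncomputable def avg {X : Type} (T : Fin d → Equiv.Perm X) (e : Fin d → Fin m → ℤ → ℤ) (f : Fin m → X → ℂ)
    (x : X) (N : ℕ) : ℂ :=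
  ((2 * N + 1 : ℕ) : ℂ)⁻¹ * ∑ n ∈ Finset.Icc (-(N : ℤ)) (N : ℤ),
    ∏ j : Fin m, f j ((List.ofFn fun i : Fin d => T i ^ e i j n).prod x)

/-- The averages converge almost everywhere for all commuting maps and all bounded functions. -/
def CommutingMaps (e : Fin d → Fin m → ℤ → ℤ) : Prop :=
  ∀ (X : Type) [MeasurableSpace X] (μ : Measure X) [IsProbabilityMeasure μ] (T : Fin d → Equiv.Perm X),
    (∀ i, Measurable (T i).symm) → (∀ i, MeasurePreserving (T i) μ μ) → (∀ i j, Commute (T i) (T j)) →
    ∀ f : Fin m → X → ℂ, (∀ j, MemLp (f j) ∞ μ) → ∀ᵐ x ∂μ, ∃ L : ℂ, Tendsto (avg T e f x) atTop (𝓝 L)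

/-- A rate for the powers `T ^ a_1, ..., T ^ a_d` of one map: `K` depends only on `e`, `ε` and `Φ`, and not on
the system, the map, the integers `a_i` and the functions. -/
def PowersOfOneMap (e : Fin d → Fin m → ℤ → ℤ) : Prop :=
  ∀ ε : ℝ, 0 < ε → ∀ Φ : ℕ → ℕ, ∃ K : ℕ,
    ∀ (X : Type) [MeasurableSpace X] (μ : Measure X) [IsProbabilityMeasure μ] (T : Equiv.Perm X),
    Measurable T.symm → MeasurePreserving T μ μ → ∀ a : Fin d → ℤ,
    ∀ f : Fin m → X → ℂ, (∀ j, Measurable (f j)) → (∀ j x, ‖f j x‖ ≤ 1) →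
      ∃ N, 1 ≤ N ∧ N ≤ K ∧ μ {x | ∃ n, N ≤ n ∧ n ≤ Φ N ∧
        ε < ‖avg (fun i => T ^ a i) e f x n - avg (fun i => T ^ a i) e f x N‖} ≤ ENNReal.ofReal ε

/-- The averages over `|n| ≤ N` of `∏_j f_j (x + ∑_i e_ij(n) a_i α)` on the circle `ℝ / ℤ`. -/
noncomputable def circleAvg (α : ℝ) (a : Fin d → ℤ) (e : Fin d → Fin m → ℤ → ℤ) (f : Fin m → UnitAddCircle → ℂ)
    (x : UnitAddCircle) (N : ℕ) : ℂ :=
  ((2 * N + 1 : ℕ) : ℂ)⁻¹ * ∑ n ∈ Finset.Icc (-(N : ℤ)) (N : ℤ),
    ∏ j : Fin m, f j (x + (∑ i, e i j n * a i) • (α : UnitAddCircle))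

/-- A rate for the multiples of the rotation by `α`, uniform in the integers `a_i` and in the bounded
measurable functions on the circle. -/
def RotationRate (α : ℝ) (e : Fin d → Fin m → ℤ → ℤ) : Prop :=
  ∀ ε : ℝ, 0 < ε → ∀ Φ : ℕ → ℕ, ∃ K : ℕ, ∀ a : Fin d → ℤ,
    ∀ f : Fin m → UnitAddCircle → ℂ, (∀ j, Measurable (f j)) → (∀ j x, ‖f j x‖ ≤ 1) →
      ∃ N, 1 ≤ N ∧ N ≤ K ∧ volume {x | ∃ n, N ≤ n ∧ n ≤ Φ N ∧
        ε < ‖circleAvg α a e f x n - circleAvg α a e f x N‖} ≤ ENNReal.ofReal ε

/-- A finite union of arcs of the circle. -/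
def FiniteUnionOfArcs (A : Set UnitAddCircle) : Prop :=
  ∃ S : Finset (ℝ × ℝ), A = ⋃ p ∈ S, (fun t : ℝ => (t : UnitAddCircle)) '' Set.Ico p.1 p.2

/-- The share of the `n` with `|n| ≤ N` for which `x + ∑_i e_ij(n) a_i` is in `A_j` for all `j`. -/
noncomputable def share {H : Type} [AddCommGroup H] (e : Fin d → Fin m → ℤ → ℤ) (a : Fin d → H)
    (A : Fin m → Set H) (x : H) (N : ℕ) : ℝ :=
  (Nat.card {n : ℤ // -(N : ℤ) ≤ n ∧ n ≤ N ∧ ∀ j, x + ∑ i, e i j n • a i ∈ A j} : ℝ) / (2 * N + 1)

/-- A rate for the multiples of the rotation by `α`, uniform in the integers `a_i` and in the sets, which are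
finite unions of arcs. -/
def ArcRate (α : ℝ) (e : Fin d → Fin m → ℤ → ℤ) : Prop :=
  ∀ ε : ℝ, 0 < ε → ∀ Φ : ℕ → ℕ, ∃ K : ℕ, ∀ (a : Fin d → ℤ) (A : Fin m → Set UnitAddCircle),
    (∀ j, FiniteUnionOfArcs (A j)) → ∃ N, 1 ≤ N ∧ N ≤ K ∧
      volume {x : UnitAddCircle | ∃ n, N ≤ n ∧ n ≤ Φ N ∧ ε < |share e (fun i => a i • (α : UnitAddCircle)) A x n -
        share e (fun i => a i • (α : UnitAddCircle)) A x N|} ≤ ENNReal.ofReal ε

/-- A rate for the finite cyclic groups `ℤ / Q`, uniform in `Q`, in the elements `a_i` and in the sets. -/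
def CyclicRate (e : Fin d → Fin m → ℤ → ℤ) : Prop :=
  ∀ ε : ℝ, 0 < ε → ∀ Φ : ℕ → ℕ, ∃ K : ℕ, ∀ Q : ℕ, 0 < Q → ∀ (a : Fin d → ZMod Q) (A : Fin m → Set (ZMod Q)),
    ∃ N, 1 ≤ N ∧ N ≤ K ∧
      (Nat.card {x : ZMod Q // ∃ n, N ≤ n ∧ n ≤ Φ N ∧ ε < |share e a A x n - share e a A x N|} : ℝ) ≤ ε * Q

open Pool.Agent.H201.Cz in
lemma commuting_pointwise (e : Fin d → Fin m → ℤ → ℤ) (h : CommutingMaps e) : FinitePermutations.Pointwise 1 e := by
  intro X _ μ _ T h1 h2 h3 f hf
  exact h X μ T h1 h2 (class_commute T h3) f hf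

open Pool.Agent.H201.Cz in
lemma pointwise_commuting (e : Fin d → Fin m → ℤ → ℤ) (h : FinitePermutations.Pointwise 1 e) : CommutingMaps e := by
  intro X _ μ _ T h1 h2 h3 f hf
  exact h X μ T h1 h2 (commute_class T h3) f hf

lemma mp_zpow {X : Type} [MeasurableSpace X] (μ : Measure X) (T : Equiv.Perm X) (h1 : Measurable T.symm)
    (h2 : MeasurePreserving T μ μ) (k : ℤ) : Measurable (T ^ k).symm ∧ MeasurePreserving (T ^ k : Equiv.Perm X) μ μ :=
  (Pool.Agent.Q161.Ms.mpGroup μ).zpow_mem (x := T) ⟨h1, h2⟩ k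

open Pool.Agent.H201.Cz in
lemma uniform_powers (e : Fin d → Fin m → ℤ → ℤ) (h : FinitePermutations.UniformRate 1 e) : PowersOfOneMap e := by
  intro ε hε Φ
  obtain ⟨K, hK⟩ := h ε hε Φ
  refine ⟨K, fun X _ μ _ T h1 h2 a f hf hb => ?_⟩
  refine hK X μ (fun i => T ^ a i) (fun i => (mp_zpow μ T h1 h2 _).1) (fun i => (mp_zpow μ T h1 h2 _).2) ?_ f hf hb
  exact commute_class _ fun i j => Commute.zpow_zpow_self T _ _

/-- the rotation -/
def rot (β : UnitAddCircle) : Equiv.Perm UnitAddCircle := Equiv.addRight β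

lemma rot_zpow (β : UnitAddCircle) (k : ℤ) : rot β ^ k = rot (k • β) := by
  apply Equiv.ext
  intro x
  induction k using Int.induction_on generalizing x with
  | zero => simp [rot]
  | succ k ih =>
    rw [zpow_add_one, Equiv.Perm.mul_apply, ih]
    simp only [rot, Equiv.coe_addRight]
    rw [add_smul, one_smul]
    abel
  | pred k ih =>
    rw [zpow_sub_one, Equiv.Perm.mul_apply, ih]
    have h1 : (rot β)⁻¹ x = x - β := by
      rw [Equiv.Perm.inv_eq_iff_eq]
      simp [rot]
    rw [h1]
    simp only [rot, Equiv.coe_addRight]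
    rw [sub_smul, one_smul]
    abel

lemma rot_prod {d : ℕ} (β : Fin d → UnitAddCircle) (x : UnitAddCircle) :
    (List.ofFn fun i => rot (β i)).prod x = x + ∑ i, β i := by
  induction d with
  | zero => simp
  | succ k ih =>
    rw [List.ofFn_succ, List.prod_cons, Equiv.Perm.mul_apply, ih, Fin.sum_univ_succ]
    simp only [rot, Equiv.coe_addRight]
    abel

lemma avg_rot (α : ℝ) (a : Fin d → ℤ) (e : Fin d → Fin m → ℤ → ℤ) (f : Fin m → UnitAddCircle → ℂ)
    (x : UnitAddCircle) (N : ℕ) :
    avg (fun i => rot (α : UnitAddCircle) ^ a i) e f x N = circleAvg α a e f x N := by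
  unfold avg circleAvg
  congr 1
  refine Finset.sum_congr rfl fun n _ => Finset.prod_congr rfl fun j _ => ?_
  congr 1
  have h1 : (List.ofFn fun i => (rot (α : UnitAddCircle) ^ a i) ^ e i j n) =
      List.ofFn fun i => rot ((e i j n * a i) • (α : UnitAddCircle)) := by
    congr 1
    funext i
    rw [← zpow_mul, rot_zpow, mul_comm]
  rw [h1, rot_prod, Finset.sum_smul]

lemma powers_rotation (α : ℝ) (e : Fin d → Fin m → ℤ → ℤ) (h : PowersOfOneMap e) : RotationRate α e := by
  intro ε hε Φ
  obtain ⟨K, hK⟩ := h ε hε Φ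
  refine ⟨K, fun a f hf hb => ?_⟩
  have hp : IsProbabilityMeasure (volume : Measure UnitAddCircle) := ⟨UnitAddCircle.measure_univ⟩
  have h1 := hK UnitAddCircle volume (rot (α : UnitAddCircle)) (by
    have : (rot (α : UnitAddCircle)).symm = rot (-(α : UnitAddCircle)) := by
      apply Equiv.ext
      intro x
      rw [Equiv.symm_apply_eq]
      simp [rot]
    rw [this]
    exact measurable_add_const _) (measurePreserving_add_right volume _) a f hf hb
  simp only [avg_rot] at h1
  exact h1

lemma arcs_measurable (A : Set UnitAddCircle) (h : FiniteUnionOfArcs A) : MeasurableSet A := by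
  obtain ⟨S, rfl⟩ := h
  refine Finset.measurableSet_biUnion _ fun p _ => ?_
  -- the image of a half open interval
  have h1 : (fun t : ℝ => (t : UnitAddCircle)) '' Set.Ico p.1 p.2 =
      ⋃ k : ℕ, (fun t : ℝ => (t : UnitAddCircle)) '' Set.Icc p.1 (p.2 - 1 / (k + 1)) := by
    rw [← Set.image_iUnion]
    congr 1
    ext t
    simp only [Set.mem_Ico, Set.mem_iUnion, Set.mem_Icc]
    constructor
    · rintro ⟨h1, h2⟩
      obtain ⟨k, hk⟩ := exists_nat_one_div_lt (show (0 : ℝ) < p.2 - t by linarith)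
      exact ⟨k, h1, by linarith⟩
    · rintro ⟨k, h1, h2⟩
      have : (0 : ℝ) < 1 / (k + 1) := by positivity
      exact ⟨h1, by linarith⟩
  rw [h1]
  refine MeasurableSet.iUnion fun k => ?_
  apply IsClosed.measurableSet
  exact (isCompact_Icc.image (AddCircle.continuous_mk' 1)).isClosed

lemma avg_share (α : ℝ) (a : Fin d → ℤ) (e : Fin d → Fin m → ℤ → ℤ) (A : Fin m → Set UnitAddCircle)
    (x : UnitAddCircle) (N : ℕ) :
    circleAvg α a e (fun j => (A j).indicator 1) x N =
      ((share e (fun i => a i • (α : UnitAddCircle)) A x N : ℝ) : ℂ) := by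
  classical
  unfold circleAvg share
  have h1 : Nat.card {n : ℤ // -(N : ℤ) ≤ n ∧ n ≤ N ∧ ∀ j, x + ∑ i, e i j n • a i • (α : UnitAddCircle) ∈ A j} =
      ((Finset.Icc (-(N : ℤ)) (N : ℤ)).filter
        (fun n => ∀ j, x + ∑ i, e i j n • a i • (α : UnitAddCircle) ∈ A j)).card := by
    rw [Nat.subtype_card]
    intro n
    rw [Finset.mem_filter, Finset.mem_Icc, and_assoc]
  rw [h1, Finset.card_eq_sum_ones, Finset.sum_filter, div_eq_inv_mul]
  push_cast
  congr 1
  refine Finset.sum_congr rfl fun n _ => ?_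
  have h2 : ∀ j, x + (∑ i, e i j n * a i) • (α : UnitAddCircle) = x + ∑ i, e i j n • a i • (α : UnitAddCircle) := by
    intro j
    rw [Finset.sum_smul]
    simp only [mul_smul]
  simp only [h2, Set.indicator_apply, Pi.one_apply]
  by_cases h3 : ∀ j, x + ∑ i, e i j n • a i • (α : UnitAddCircle) ∈ A j
  · rw [if_pos h3]
    exact Finset.prod_eq_one fun j _ => if_pos (h3 j)
  · rw [if_neg h3]
    push Not at h3
    obtain ⟨j, hj⟩ := h3
    exact Finset.prod_eq_zero (Finset.mem_univ j) (if_neg hj)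

lemma rotation_arc (α : ℝ) (e : Fin d → Fin m → ℤ → ℤ) (h : RotationRate α e) : ArcRate α e := by
  intro ε hε Φ
  obtain ⟨K, hK⟩ := h ε hε Φ
  refine ⟨K, fun a A hA => ?_⟩
  have h1 := hK a (fun j => (A j).indicator 1)
    (fun j => measurable_one.indicator (arcs_measurable _ (hA j))) (by
    intro j x
    by_cases hx : x ∈ A j <;> simp [hx])
  simp only [avg_share, ← Complex.ofReal_sub, Complex.norm_real, Real.norm_eq_abs] at h1
  exact h1

/-- **One irrational rotation decides the question for commuting maps.** For arbitrary exponents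
`e_ij : ℤ → ℤ`, for example integer polynomials, and every irrational `α` the five statements are
equivalent. -/
theorem result (d m : ℕ) (e : Fin d → Fin m → ℤ → ℤ) (α : ℝ) (hα : Irrational α) :
    List.TFAE [CommutingMaps e, PowersOfOneMap e, RotationRate α e, ArcRate α e, CyclicRate e] := by
  tfae_have 1 → 2 := fun h =>
    uniform_powers e (((FinitePermutations.equiv 1 e).1).1 (commuting_pointwise e h))
  tfae_have 2 → 3 := powers_rotation α e
  tfae_have 3 → 4 := rotation_arc α e
  tfae_have 4 → 5 := fun h => Pool.Agent.H201.Cz.arc_cyclic hα e h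
  tfae_have 5 → 1 := fun h =>
    pointwise_commuting e (((FinitePermutations.equiv 1 e).2).2 (Pool.Agent.H201.Cz.cyclic_finitary e h))
  tfae_finish

end Pool.Agent.Results.MP_4d8f14_an.OneRotation
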